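import Pool.Agent.V1157.BD.Defs
import Pool.Agent.V1157.RC.Base
import Pool.Agent.V1157.PI.Stair

/-!
# Bounded defects in the Tate conjecture
-/

open CategoryTheory AlgebraicGeometry

universe u v w

namespace Pool.Agent.V1157.BD

open Pool.Agent.H914 Pool.Agent.H914.VarClass Pool.Agent.H914.VarClass.Obj Pool.Agent.W492.BB
  Pool.Agent.W550.Corr Pool.Agent.TH133 Pool.Agent.Y148.BB
open Pool.Agent.V1157.RC (graph_mem cog_gr pow_eq_sum pow_mem')

set_option linter.unusedSectionVars false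

variable {k : Type u} [Field k] {𝒱 : VarClass k} {C : TheoryData.{u, v, 0} 𝒱 ℚ}
  [hC : IsChowProj C] {K : Type w} [Field K] {H : WeilTheoryData.{u, v, w} C K}
  [hH : IsWeilProj H] {T : ClassFamily H} {S V X Y U : 𝒱.Obj} {n r : ℕ}

/-- The class of the scalar `q`. -/
noncomputable def sc (H : WeilTheoryData.{u, v, w} C K) (X : 𝒱.Obj) (q : ℚ) : H.A X :=
  H.cl (algebraMap ℚ (C.A X) q)

include hC hH

lemma sc_mul (q q' : ℚ) (x : H.A X) : sc H X q * (sc H X q' * x) = sc H X (q * q') * x := by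
  rw [sc, sc, sc, ← mul_assoc, ← map_mul, ← map_mul]

lemma sc_one (x : H.A X) : sc H X 1 * x = x := by
  rw [sc, map_one, map_one, one_mul]

lemma act_cl_smul (q : ℚ) (Γ : C.A (X.prod Y)) (a : H.A X) :
    H.act (H.cl (q • Γ)) a = sc H Y q * H.act (H.cl Γ) a := by
  have h1 : H.cl (q • Γ) = H.pull (snd X Y) (H.cl (algebraMap ℚ (C.A Y) q)) * H.cl Γ := by
    rw [Algebra.smul_def, ← (C.pull (snd X Y)).commutes, (H.cl (X := X.prod Y)).map_mul,
      H.cl_pull]
  rw [sc, TheoryData.act_apply, TheoryData.act_apply, h1, mul_assoc, H.proj_left]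

lemma pull_sc (f : X ⟶ Y) (q : ℚ) (a : H.A Y) :
    H.pull f (sc H Y q * a) = sc H X q * H.pull f a := by
  rw [map_mul, sc, sc, ← H.cl_pull, (C.pull f).commutes]

lemma push_sc (f : X ⟶ Y) (q : ℚ) (a : H.A X) :
    H.push f (sc H X q * a) = sc H Y q * H.push f a := by
  rw [sc, ← (C.pull f).commutes, H.cl_pull, H.proj_left]
  rfl

lemma act_sc (Γ : C.A (X.prod Y)) (q : ℚ) (a : H.A X) :
    H.act (H.cl Γ) (sc H X q * a) = sc H Y q * H.act (H.cl Γ) a := by
  have h1 : H.cl Γ * sc H (X.prod Y) q = sc H (X.prod Y) q * H.cl Γ := by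
    rw [sc, H.cl_central]
  rw [TheoryData.act_apply, TheoryData.act_apply, pull_sc, ← mul_assoc, h1, mul_assoc, push_sc]

/-! ### Algebraic classes -/

omit hC hH in
lemma alg_cl {z : C.A X} (hz : C.Deg r z) : IsAlg H r (H.cl z) :=
  Submodule.subset_span ⟨z, hz, rfl⟩

omit hC hH in
lemma alg_zero : IsAlg H r (0 : H.A X) := Submodule.zero_mem _

omit hC hH in
lemma alg_add {x y : H.A X} (hx : IsAlg H r x) (hy : IsAlg H r y) : IsAlg H r (x + y) :=
  Submodule.add_mem _ hx hy

omit hC hH in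
lemma alg_sub {x y : H.A X} (hx : IsAlg H r x) (hy : IsAlg H r y) : IsAlg H r (x - y) :=
  Submodule.sub_mem _ hx hy

omit hC hH in
lemma alg_smul (c : K) {x : H.A X} (hx : IsAlg H r x) : IsAlg H r (c • x) :=
  Submodule.smul_mem _ c hx

omit hC hH in
lemma alg_sum {ι : Type*} (s : Finset ι) (x : ι → H.A X) (hx : ∀ i ∈ s, IsAlg H r (x i)) :
    IsAlg H r (∑ i ∈ s, x i) := Submodule.sum_mem _ hx

lemma alg_sc (q : ℚ) {x : H.A X} (hx : IsAlg H r x) : IsAlg H r (sc H X q * x) := by
  induction hx using Submodule.span_induction with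
  | mem x hx =>
    obtain ⟨z, hz, rfl⟩ := hx
    rw [sc, ← map_mul, ← Algebra.smul_def]
    exact alg_cl (Submodule.smul_mem _ q hz)
  | zero => rw [mul_zero]; exact alg_zero
  | add a b _ _ ha hb => rw [mul_add]; exact alg_add ha hb
  | smul c a _ ha => rw [mul_smul_comm]; exact alg_smul c ha

lemma alg_of_sc {q : ℚ} (hq : q ≠ 0) {x : H.A X} (hx : IsAlg H r (sc H X q * x)) :
    IsAlg H r x := by
  have := alg_sc (q⁻¹) hx
  rwa [sc_mul, inv_mul_cancel₀ hq, sc_one] at this

lemma alg_pull (f : X ⟶ Y) {x : H.A Y} (hx : IsAlg H r x) : IsAlg H r (H.pull f x) := by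
  induction hx using Submodule.span_induction with
  | mem x hx =>
    obtain ⟨z, hz, rfl⟩ := hx
    rw [← H.cl_pull]
    exact alg_cl (C.pull_mem f hz)
  | zero => rw [map_zero]; exact alg_zero
  | add a b _ _ ha hb => rw [map_add]; exact alg_add ha hb
  | smul c a _ ha => rw [map_smul]; exact alg_smul c ha

lemma alg_act (hX : X.dim = n) {Γ : C.A (X.prod Y)} (hΓ : Γ ∈ C.gr (X.prod Y) n) {x : H.A X}
    (hx : IsAlg H r x) : IsAlg H r (H.act (H.cl Γ) x) := by
  have key : ∀ y : H.A X, IsAlg H r y → IsAlg H r (H.actL (H.cl Γ) y) := by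
    intro y hy
    induction hy using Submodule.span_induction with
    | mem x hx =>
      obtain ⟨z, hz, rfl⟩ := hx
      rw [TheoryData.actL_apply, ← cl_act H Γ z]
      have h2 := act_mem (C := C) (e := 0) (Γ := Γ) (gr_congr (by rw [hX]; ring) hΓ) hz
      exact alg_cl (gr_congr (by ring) h2)
    | zero => rw [map_zero]; exact alg_zero
    | add a b _ _ ha hb => rw [map_add]; exact alg_add ha hb
    | smul c a _ ha => rw [map_smul]; exact alg_smul c ha
  exact key x hx

lemma alg_push (hX : X.dim = n) (hY : Y.dim = n) (f : X ⟶ Y) {x : H.A X} (hx : IsAlg H r x) :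
    IsAlg H r (H.push f x) := by
  induction hx using Submodule.span_induction with
  | mem x hx =>
    obtain ⟨z, hz, rfl⟩ := hx
    rw [← H.cl_push]
    exact alg_cl (gr_congr (by rw [hX, hY]; ring) (C.push_mem f hz))
  | zero => rw [map_zero]; exact alg_zero
  | add a b _ _ ha hb => rw [map_add]; exact alg_add ha hb
  | smul c a _ ha => rw [map_smul]; exact alg_smul c ha

/-- Decomposable correspondences map all classes to algebraic classes. -/
lemma alg_ext (hX : X.dim = n) {i j : ℕ} (hij : i + j = n) {a : C.A X} {b : C.A Y}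
    (hb : C.Deg j b) (ha : C.Deg i a) {t : H.A X} (ht : H.Deg (2 * r) t) :
    IsAlg H r (H.act (H.cl (C.ext a b)) t) := by
  have h0 : H.cl (C.ext a b) = H.pull (fst X Y) (H.cl a) * H.cl (C.pull (snd X Y) b) := by
    rw [TheoryData.ext, (H.cl (X := X.prod Y)).map_mul, H.cl_pull (fst X Y)]
  have h1 : H.act (H.cl (C.ext a b)) t =
      H.push (snd X Y) (H.pull (fst X Y) (H.cl a * t)) * H.cl b := by
    rw [TheoryData.act_apply, h0, mul_assoc, H.cl_central, ← mul_assoc, H.cl_pull,
      H.proj_right, ← map_mul (H.pull (fst X Y))]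
  have h2 : H.cl a * t ∈ H.gr X (2 * i + 2 * r) := H.mul_mem (H.cl_mem ha) ht
  have h3' := H.push_mem (snd X Y) (H.pull_mem (fst X Y) h2)
  have e3 : (2 * i + 2 * r : ℤ) + 2 * ((Y.dim : ℤ) - ((X.prod Y).dim : ℤ)) =
      2 * i + 2 * r - 2 * n := by rw [dim_prod, hX]; push_cast; ring
  have h3 : H.push (snd X Y) (H.pull (fst X Y) (H.cl a * t)) ∈
      H.gr Y (2 * i + 2 * r - 2 * n) := by rwa [e3] at h3'
  rw [h1]
  rcases lt_trichotomy (i + r) n with h | h | h
  · rw [H.gr_neg Y _ (by omega)] at h3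
    rw [(Submodule.mem_bot _).1 h3, zero_mul]
    exact alg_zero
  · have e4 : (2 * i + 2 * r - 2 * n : ℤ) = 0 := by omega
    rw [e4] at h3
    obtain ⟨c, hc⟩ := hH.gr_zero Y _ h3
    rw [hc, smul_mul_assoc, one_mul]
    have hjr : j = r := by omega
    rw [hjr] at hb
    exact alg_smul c (alg_cl hb)
  · rw [gr_top H (by rw [hX]; push_cast; omega)] at h2
    rw [(Submodule.mem_bot _).1 h2, map_zero, map_zero, zero_mul]
    exact alg_zero

lemma alg_pow (hX : X.dim = n) {a : C.A X} {b : C.A Y} (hb : b ∈ C.gr Y 1) (ha : a ∈ C.gr X 1)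
    (c : ℚ) {t : H.A X} (ht : H.Deg (2 * r) t) :
    IsAlg H r (H.act (H.cl (c • (C.pull (fst X Y) a + C.pull (snd X Y) b) ^ n)) t) := by
  rw [act_cl_smul, pow_eq_sum]
  apply alg_sc
  have h1 : H.act (H.cl (∑ j ∈ Finset.range (n + 1), (n.choose j : ℚ) •
      C.ext (a ^ j) (b ^ (n - j)))) t = ∑ j ∈ Finset.range (n + 1),
        H.act (H.cl ((n.choose j : ℚ) • C.ext (a ^ j) (b ^ (n - j)))) t := by
    rw [map_sum, act_sum]
  rw [h1]
  apply alg_sum
  intro j hj
  have hj' : j ≤ n := Nat.lt_succ_iff.1 (Finset.mem_range.1 hj)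
  rw [act_cl_smul]
  exact alg_sc _ (alg_ext hX (by omega) (pow_mem' hb _) (pow_mem' ha _) ht)

/-! ### Complete intersections in `S^N` -/

/-- The data of `HasPower`. -/
structure Pw (C : TheoryData.{u, v, 0} 𝒱 ℚ) (n N : ℕ) {S V : 𝒱.Obj} (p : ℕ → (V ⟶ S)) (a : C.A S)
    (c κ : ℚ) : Prop where
  dimS : S.dim = n
  dimV : V.dim = n
  ha : a ∈ C.gr S 1
  hκ : κ ≠ 0
  pp : ∀ i < N, C.push (p i) 1 = κ • (1 : C.A S)
  pq : ∀ i < N, ∀ j < N, i ≠ j → C.push (Obj.lift (p i) (p j)) 1 =
    c • (C.pull (fst S S) a + C.pull (snd S S) a) ^ n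

section power

variable {N : ℕ} {p : ℕ → (V ⟶ S)} {a : C.A S} {c κ : ℚ} (h : Pw C n N p a c κ)
include h

lemma Pw.push_pull {i : ℕ} (hi : i < N) (t : H.A S) :
    H.push (p i) (H.pull (p i) t) = sc H S κ * t := by
  have h1 := H.proj_right (p i) 1 t
  rw [one_mul] at h1
  have h2 : H.push (p i) (1 : H.A V) = sc H S κ := by
    rw [← map_one (H.cl (X := V)), ← H.cl_push, h.pp i hi, sc, Algebra.algebraMap_eq_smul_one]
  rw [h1, h2]

lemma Pw.push_pull_ne {i j : ℕ} (hi : i < N) (hj : j < N) (hij : i ≠ j) {t : H.A S}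
    (ht : H.Deg (2 * r) t) : IsAlg H r (H.push (p j) (H.pull (p i) t)) := by
  have h1 : H.push (p j) (H.pull (p i) t) =
      H.act (H.cl (C.comp (C.cograph (p i)) (C.graph (p j)))) t := by
    rw [actH_comp]
    have e1 : H.cl (C.cograph (p i)) = H.cograph (p i) := by
      rw [TheoryData.cograph, TheoryData.cograph, H.cl_push, map_one]
    have e2 : H.cl (C.graph (p j)) = H.graph (p j) := by
      rw [TheoryData.graph, TheoryData.graph, H.cl_push, map_one]
    rw [e1, e2, H.act_cograph, H.act_graph]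
  rw [h1, cog_gr, h.pq i hi j hj hij]
  exact alg_pow h.dimS h.ha h.ha c ht

/-- The correspondence `p_j^* p_i_*` -/
noncomputable def mt (C : TheoryData.{u, v, 0} 𝒱 ℚ) {S V : 𝒱.Obj} (p q : V ⟶ S) :
    C.A (V.prod V) := C.comp (C.graph p) (C.cograph q)

omit h in
lemma act_mt (p q : V ⟶ S) (s : H.A V) :
    H.act (H.cl (mt C p q)) s = H.pull q (H.push p s) := by
  rw [mt, actH_comp]
  have e1 : H.cl (C.cograph q) = H.cograph q := by
    rw [TheoryData.cograph, TheoryData.cograph, H.cl_push, map_one]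
  have e2 : H.cl (C.graph p) = H.graph p := by
    rw [TheoryData.graph, TheoryData.graph, H.cl_push, map_one]
  rw [e1, e2, H.act_cograph, H.act_graph]

omit hH in
lemma Pw.mt_mem (i j : ℕ) : mt C (p i) (p j) ∈ C.gr (V.prod V) n := by
  have g1 : C.graph (p i) ∈ C.gr (V.prod S) (V.dim + 0) :=
    gr_congr (by rw [h.dimS, h.dimV]; ring) (graph_mem (p i))
  have g2 : C.cograph (p j) ∈ C.gr (S.prod V) (S.dim + 0) :=
    gr_congr (by ring) (cograph_mem (p j))
  exact gr_congr (by rw [h.dimV]; ring) (comp_mem C g1 g2)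

end power

omit hC hH in
lemma exists_pw {N : ℕ} (hS : S.dim = n) (hP : HasPower C n N S) :
    ∃ (V : 𝒱.Obj) (p : ℕ → (V ⟶ S)) (a : C.A S) (c κ : ℚ), Pw C n N p a c κ := by
  obtain ⟨V, p, a, c, κ, h1, h2, h3, h4, h5⟩ := hP
  exact ⟨V, p, a, c, κ, ⟨hS, h1, h2, h3, h4, h5⟩⟩

/-- Bounded defects vanish. -/
theorem of_bounded (hP : ∀ (S : 𝒱.Obj) (N : ℕ), S.dim = n → HasPower C n N S) {D : ℕ}
    (hD : DefectAtMost T n r D) : TateConj T n r := by
  intro S t hS ht
  obtain ⟨V, p, a, c, κ, h⟩ := exists_pw hS (hP S (D + 1) hS)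
  obtain ⟨b, hb, hb2⟩ := hD V (fun i => H.pull (p i) t) h.dimV (fun i => T.pull (p i) ht)
  obtain ⟨i, hi⟩ : ∃ i, b i ≠ 0 := by
    by_contra hcon
    push Not at hcon
    exact hb (funext hcon)
  have h1 := alg_push h.dimV h.dimS (p i) hb2
  rw [map_sum, ← Finset.add_sum_erase _ _ (Finset.mem_univ i)] at h1
  have h2 : IsAlg H r (∑ j ∈ Finset.univ.erase i, H.push (p i) (b j • H.pull (p j) t)) := by
    apply alg_sum
    intro j hj
    rw [map_smul]
    exact alg_smul _ (h.push_pull_ne j.2 i.2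
      (fun e => (Finset.mem_erase.1 hj).1 (Fin.ext e)) (T.deg ht))
  have h3 := alg_sub h1 h2
  rw [add_sub_cancel_right, map_smul, h.push_pull i.2] at h3
  have h4 := alg_smul (b i)⁻¹ h3
  rw [smul_smul, inv_mul_cancel₀ hi, one_smul] at h4
  exact alg_of_sc h.hκ h4

/-! ### Polynomial identities -/

/-- The operators preserve algebraic classes. -/
lemma alg_ops (hX : X.dim = n) {W : List (C.A (X.prod X))} (hW : ∀ Γ ∈ W, C.Deg n Γ) {x : H.A X}
    (hx : IsAlg H r x) : IsAlg H r (ops H W x) := by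
  induction W generalizing x with
  | nil => exact hx
  | cons Γ W ih =>
    exact ih (fun Δ hΔ => hW Δ (List.mem_cons_of_mem _ hΔ))
      (alg_act hX (hW Γ List.mem_cons_self) hx)

omit hC hH in
lemma ops_cons (Γ : C.A (X.prod X)) (W : List (C.A (X.prod X))) (x : H.A X) :
    ops H (Γ :: W) x = ops H W (H.act (H.cl Γ) x) := rfl

lemma ops_sc (W : List (C.A (X.prod X))) (q : ℚ) (x : H.A X) :
    ops H W (sc H X q * x) = sc H X q * ops H W x := by
  induction W generalizing x with
  | nil => rfl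
  | cons Γ W ih => rw [ops_cons, ops_cons, act_sc, ih]

section stair

variable {d : ℕ} {p : ℕ → (V ⟶ S)} {a : C.A S} {c κ : ℚ} (h : Pw C n (d + 1) p a c κ)
include h

/-- Applying the staircase operators in an order different from the natural one gives algebraic
classes. -/
lemma Pw.ops_ne {t : H.A S} (ht : H.Deg (2 * r) t) (l : List (Fin d)) (m : ℕ) (hm : m ≤ d)
    (hl : ¬ (∀ q : ℕ, ∀ hq : q < l.length, (l[q] : ℕ) = m + q)) :
    IsAlg H r (ops H (l.map fun i : Fin d => mt C (p i) (p (i + 1))) (H.pull (p m) t)) := by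
  induction l generalizing m with
  | nil => exact absurd (fun q hq => absurd hq (by simp)) hl
  | cons i l ih =>
    rw [List.map_cons, ops_cons, act_mt]
    by_cases him : (i : ℕ) = m
    · subst him
      rw [h.push_pull (by omega), pull_sc, ops_sc]
      apply alg_sc
      apply ih (i + 1) (by omega)
      intro hcon
      apply hl
      intro q hq
      cases q with
      | zero => rfl
      | succ q =>
        rw [List.getElem_cons_succ, hcon q (by simpa using hq)]
        ring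
    · have h1 := alg_pull (p (i + 1)) (h.push_pull_ne (i := m) (j := i) (by omega)
        (by have := i.2; omega) (Ne.symm him) ht)
      refine alg_ops h.dimV ?_ h1
      intro Γ hΓ
      obtain ⟨j, -, rfl⟩ := List.mem_map.1 hΓ
      exact h.mt_mem _ _

lemma Pw.ops_stair (t : H.A S) (e m : ℕ) (hm : m + e = d) (l : List (Fin d)) (hle : l.length = e)
    (hl : ∀ q : ℕ, ∀ hq : q < l.length, (l[q] : ℕ) = m + q) :
    ops H (l.map fun i : Fin d => mt C (p i) (p (i + 1))) (H.pull (p m) t) =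
      sc H V (κ ^ e) * H.pull (p d) t := by
  induction e generalizing m l with
  | zero =>
    rw [List.length_eq_zero_iff] at hle
    subst hle
    rw [add_zero] at hm
    subst hm
    rw [pow_zero, sc_one]
    rfl
  | succ e ih =>
    obtain ⟨i, l', rfl⟩ := List.exists_cons_of_length_eq_add_one hle
    have h1 : (i : ℕ) = m := by
      have := hl 0 (by simp)
      simpa using this
    rw [List.map_cons, ops_cons, act_mt]
    rw [← h1, h.push_pull (by omega), pull_sc, ops_sc, ih (i + 1) (by omega) l' (by simpa using hle)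
      (fun q hq => ?_), sc_mul, ← pow_succ']
    have := hl (q + 1) (by simpa using hq)
    rw [List.getElem_cons_succ] at this
    omega

end stair

/-- A polynomial identity implies the Tate conjecture. -/
theorem of_identity (hP : ∀ (S : 𝒱.Obj) (N : ℕ), S.dim = n → HasPower C n N S) {d : ℕ}
    {c : Equiv.Perm (Fin d) → K} (hc : c ≠ 0) (hI : PolyIdentity T n r d c) :
    TateConj T n r := by
  intro S t hS ht
  obtain ⟨V, p, a, b, κ, h⟩ := exists_pw hS (hP S (d + 1) hS)
  obtain ⟨σ, hσ⟩ : ∃ σ, c σ ≠ 0 := by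
    by_contra hcon
    push Not at hcon
    exact hc (funext hcon)
  have h1 := hI V (fun i => mt C (p (σ⁻¹ i)) (p (σ⁻¹ i + 1))) (H.pull (p 0) t) h.dimV
    (fun i => h.mt_mem _ _) (T.pull (p 0) ht)
  rw [← Finset.add_sum_erase _ _ (Finset.mem_univ σ)] at h1
  have e0 : ∀ τ : Equiv.Perm (Fin d), (List.ofFn fun i => mt C (p (σ⁻¹ (τ i)))
      (p (σ⁻¹ (τ i) + 1))) = (List.ofFn fun i => (σ⁻¹ * τ) i).map fun i : Fin d =>
        mt C (p i) (p (i + 1)) := by
    intro τ
    rw [List.map_ofFn]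
    rfl
  have h2 : IsAlg H r (∑ τ ∈ Finset.univ.erase σ, c τ • ops H (List.ofFn fun i =>
      mt C (p (σ⁻¹ (τ i))) (p (σ⁻¹ (τ i) + 1))) (H.pull (p 0) t)) := by
    apply alg_sum
    intro τ hτ
    rw [e0]
    refine alg_smul _ (h.ops_ne (T.deg ht) _ 0 (by omega) ?_)
    intro hcon
    apply (Finset.mem_erase.1 hτ).1
    have h3 : σ⁻¹ * τ = 1 := by
      ext i
      have := hcon i (by simp)
      simpa using this
    rw [inv_mul_eq_one] at h3
    exact h3.symm
  have h3 := alg_sub h1 h2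
  rw [add_sub_cancel_right, e0, inv_mul_cancel] at h3
  rw [h.ops_stair t d 0 (by omega) _ (by simp) (by intro q hq; simp)] at h3
  have h4 := alg_smul (c σ)⁻¹ h3
  rw [smul_smul, inv_mul_cancel₀ hσ, one_smul] at h4
  have h5 := alg_push h.dimV h.dimS (p d) (alg_of_sc (pow_ne_zero _ h.hκ) h4)
  rw [h.push_pull (by omega)] at h5
  exact alg_of_sc h.hκ h5

/-- **Equivalent forms of the Tate conjecture.** -/
theorem main (T : ClassFamily H)
    (hP : ∀ (S : 𝒱.Obj) (N : ℕ), S.dim = n → HasPower C n N S) :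
    List.TFAE [TateConj T n r, ∃ D, DefectAtMost T n r D, Commuting T n r,
      ∃ (d : ℕ) (c : Equiv.Perm (Fin d) → K), c ≠ 0 ∧ PolyIdentity T n r d c] := by
  tfae_have 1 → 2 := by
    intro h
    refine ⟨0, fun X t hX ht => ⟨fun _ => 1, ?_, ?_⟩⟩
    · intro h0
      exact one_ne_zero (congrFun h0 0)
    · apply alg_sum
      intro i _
      exact alg_smul _ (h X _ hX (ht i))
  tfae_have 2 → 1 := fun ⟨D, hD⟩ => of_bounded hP hD
  tfae_have 1 → 3 := by
    intro h X A B t hX hA hB ht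
    exact alg_sub (alg_act hX hA (alg_act hX hB (h X t hX ht)))
      (alg_act hX hB (alg_act hX hA (h X t hX ht)))
  tfae_have 3 → 4 := by
    intro h
    refine ⟨2, fun σ => if σ = 1 then 1 else -1, ?_, ?_⟩
    · intro h0
      have := congrFun h0 1
      simp at this
    · intro X W t hX hW ht
      have h1 := h X (W 1) (W 0) t hX (hW 1) (hW 0) ht
      have h2 : (Finset.univ : Finset (Equiv.Perm (Fin 2))) = {1, Equiv.swap 0 1} := by decide
      have h3 : (1 : Equiv.Perm (Fin 2)) ≠ Equiv.swap 0 1 := by decide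
      rw [h2, Finset.sum_pair h3]
      beta_reduce
      rw [if_pos rfl, if_neg h3.symm]
      simp only [List.ofFn_succ, List.ofFn_zero, Equiv.Perm.one_apply, one_smul, neg_smul,
        Equiv.swap_apply_left, Fin.succ_zero_eq_one, Equiv.swap_apply_right, ops, List.foldl_cons,
        List.foldl_nil, ← sub_eq_add_neg]
      exact h1
  tfae_have 4 → 1 := fun ⟨d, c, hc, hI⟩ => of_identity hP hc hI
  tfae_finish

end Pool.Agent.V1157.BD
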