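import Pool.Agent.W492.BB.Defs

/-!
# Bounded defects in the Tate conjecture: definitions
-/

open CategoryTheory AlgebraicGeometry

universe u v w

namespace Pool.Agent.V1157.BD

open Pool.Agent.H914 Pool.Agent.H914.VarClass Pool.Agent.H914.VarClass.Obj Pool.Agent.W492.BB

variable {k : Type u} [Field k] {𝒱 : VarClass k}

/-- For the variety `S` of dimension `n` there are a variety `V` of dimension `n`, morphisms
`p 0, …, p (N - 1) : V ⟶ S` of the same degree `κ ≠ 0` and a divisor class `a` on `S`, such that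
for `i ≠ j` the class `(p i, p j)_* [V]` on `S × S` is a rational multiple of
`(a × S + S × a) ^ n`. (For `n ≥ 1` and smooth projective varieties over a field: `a` is very ample
and `V ⊆ S^N` is a suitable complete intersection of `(N - 1) n` divisors in multiples of the class
of the sum of the pull-backs of `a`, by the theorems of Bertini.) -/
def HasPower (C : TheoryData.{u, v, 0} 𝒱 ℚ) (n N : ℕ) (S : 𝒱.Obj) : Prop :=
  ∃ (V : 𝒱.Obj) (p : ℕ → (V ⟶ S)) (a : C.A S) (c κ : ℚ), V.dim = n ∧ C.Deg 1 a ∧ κ ≠ 0 ∧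
    (∀ i < N, C.down (p i) 1 = κ • (1 : C.A S)) ∧
    ∀ i < N, ∀ j < N, i ≠ j → C.down (Obj.lift (p i) (p j)) 1 =
      c • (C.up (fst S S) a + C.up (snd S S) a) ^ n

variable {C : TheoryData.{u, v, 0} 𝒱 ℚ} {K : Type w} [Field K] (H : WeilTheoryData.{u, v, w} C K)

/-- Distinguished classes in `H^{2r}(X)`, for all `X` and `r`, preserved by pull-backs and by
push-forwards. (For the Tate conjecture over the field `k`: the Galois-invariant classes in
`H^{2r}(X_{k^sep}, ℚ_ℓ(r))`. For the Hodge conjecture: the `ℚ`-span, with coefficients `K = ℚ`, of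
the Hodge classes.) -/
structure ClassFamily where
  /-- `Mem X r t`: the class `t ∈ H^{2r}(X)` is distinguished -/
  Mem : ∀ X : 𝒱.Obj, ℕ → H.A X → Prop
  deg : ∀ {X : 𝒱.Obj} {r : ℕ} {t : H.A X}, Mem X r t → H.Deg (2 * r) t
  pull : ∀ {X Y : 𝒱.Obj} (f : X ⟶ Y) {r : ℕ} {t : H.A Y}, Mem Y r t → Mem X r (H.up f t)
  push : ∀ {X Y : 𝒱.Obj} (f : X ⟶ Y) {r s : ℕ} {t : H.A X}, r + Y.dim = s + X.dim → Mem X r t →
    Mem Y s (H.down f t)

/-- The class `x` is algebraic: it is a linear combination (with coefficients in `K`) of classes of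
cycles of codimension `r`. -/
def IsAlg {X : 𝒱.Obj} (r : ℕ) (x : H.A X) : Prop :=
  x ∈ Submodule.span K {y : H.A X | ∃ z : C.A X, C.Deg r z ∧ y = H.cl z}

/-- The composition of the actions of the correspondences in the list `W`, the first one acting
first. -/
noncomputable def ops {X : 𝒱.Obj} (W : List (C.A (X.prod X))) (t : H.A X) : H.A X :=
  W.foldl (fun s Γ => H.act (H.cl Γ) s) t

variable {H} (T : ClassFamily H) (n r : ℕ)

/-- The distinguished classes of codimension `r` on the varieties of dimension `n` are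
algebraic. -/
def TateConj : Prop := ∀ (X : 𝒱.Obj) (t : H.A X), X.dim = n → T.Mem X r t → IsAlg H r t

/-- Any `D + 1` distinguished classes of codimension `r` on a variety of dimension `n` are linearly
dependent modulo algebraic classes. -/
def DefectAtMost (D : ℕ) : Prop := ∀ (X : 𝒱.Obj) (t : Fin (D + 1) → H.A X), X.dim = n →
  (∀ i, T.Mem X r (t i)) → ∃ c : Fin (D + 1) → K, c ≠ 0 ∧ IsAlg H r (∑ i, c i • t i)

/-- The actions of any two self-correspondences of degree zero on the distinguished classes modulo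
algebraic classes commute. -/
def Commuting : Prop := ∀ (X : 𝒱.Obj) (A B : C.A (X.prod X)) (t : H.A X), X.dim = n →
  C.Deg n A → C.Deg n B → T.Mem X r t →
  IsAlg H r (H.act (H.cl A) (H.act (H.cl B) t) - H.act (H.cl B) (H.act (H.cl A) t))

/-- The actions of any `d` self-correspondences of degree zero on the distinguished classes modulo
algebraic classes satisfy the multilinear polynomial identity
`∑ c(σ) W_{σ(1)} W_{σ(2)} ⋯ W_{σ(d)} = 0`, the sum over all permutations `σ`. -/
def PolyIdentity (d : ℕ) (c : Equiv.Perm (Fin d) → K) : Prop :=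
  ∀ (X : 𝒱.Obj) (W : Fin d → C.A (X.prod X)) (t : H.A X), X.dim = n → (∀ i, C.Deg n (W i)) →
    T.Mem X r t → IsAlg H r (∑ σ, c σ • ops H (List.ofFn fun i => W (σ i)) t)

end Pool.Agent.V1157.BD
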